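import Pool.Agent.Y271.RO.Stm
import Pool.Agent.Y283.NK.L2c

/-!
# Rank one perturbations of normal operators among the resolvents: general lemmas
-/

set_option autoImplicit false

namespace Pool.Agent.Q202.HC

open Filter Topology
open scoped InnerProductSpace ComplexConjugate
open Pool.Agent.Y283.NK (HasHyp LocVec)
open Pool.Agent.Y271.RO (T1)
open ContinuousLinearMap (adjoint)

section General

variable {H G : Type} [NormedAddCommGroup H] [NormedSpace ℂ H] [NormedAddCommGroup G]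
  [NormedSpace ℂ G]

/-- small local spectra of `B = J A Q`, `Q J = 1`, give those of `A` -/
lemma locVec_of_intertw {A : H →L[ℂ] H} {B : G →L[ℂ] G} (J : H →L[ℂ] G) (Q : G →L[ℂ] H)
    (hQJ : ∀ x, Q (J x) = x) (hB : ∀ g, B g = J (A (Q g))) (hA : IsUnit A) (h : LocVec B) :
    LocVec A := by
  intro c hc ε hε
  have hc0 : c ≠ 0 := by
    rintro rfl
    exact (spectrum.zero_notMem_iff ℂ).2 hA hc
  have hcB : c ∈ spectrum ℂ B := by
    by_contra hcon
    have hU : IsUnit (algebraMap ℂ (G →L[ℂ] G) c - B) := by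
      by_contra h'
      exact hcon h'
    obtain ⟨U, hU⟩ := hU
    have h1 : ∀ g, (algebraMap ℂ (G →L[ℂ] G) c - B) ((↑U⁻¹ : G →L[ℂ] G) g) = g := by
      intro g
      have := congrArg (fun F : G →L[ℂ] G => F g) U.mul_inv
      rw [hU] at this
      exact this
    have h2 : ∀ g, (↑U⁻¹ : G →L[ℂ] G) ((algebraMap ℂ (G →L[ℂ] G) c - B) g) = g := by
      intro g
      have := congrArg (fun F : G →L[ℂ] G => F g) U.inv_mul
      rw [hU] at this
      exact this
    apply hc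
    have e1 : ∀ g, (algebraMap ℂ (G →L[ℂ] G) c - B) g = c • g - B g := fun g => by
      simp [Algebra.algebraMap_eq_smul_one]
    have e2 : ∀ x, (algebraMap ℂ (H →L[ℂ] H) c - A) x = c • x - A x := fun x => by
      simp [Algebra.algebraMap_eq_smul_one]
    refine ⟨⟨algebraMap ℂ (H →L[ℂ] H) c - A, Q ∘L (↑U⁻¹ : G →L[ℂ] G) ∘L J, ?_, ?_⟩, rfl⟩
    · ext x
      show (algebraMap ℂ (H →L[ℂ] H) c - A) (Q ((↑U⁻¹ : G →L[ℂ] G) (J x))) = x
      rw [e2]
      have h3 := congrArg Q (h1 (J x))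
      rw [e1, map_sub, map_smul, hB, hQJ, hQJ] at h3
      exact h3
    · ext x
      show Q ((↑U⁻¹ : G →L[ℂ] G) (J ((algebraMap ℂ (H →L[ℂ] H) c - A) x))) = x
      have h3 : J ((algebraMap ℂ (H →L[ℂ] H) c - A) x) =
          (algebraMap ℂ (G →L[ℂ] G) c - B) (J x) := by
        rw [e1, e2, map_sub, map_smul, hB, hQJ]
      rw [h3, h2, hQJ]
  have hcn : 0 < ‖c‖ := norm_pos_iff.2 hc0
  obtain ⟨x, C, hx0, hx⟩ := h c hcB (min ε (‖c‖ / 2)) (lt_min hε (by positivity))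
  have hC : 0 ≤ C := by
    have := hx 0
    simp only [pow_zero, mul_one] at this
    exact le_trans (norm_nonneg _) this
  have hpow : ∀ n : ℕ, ∀ g : G, Q (((B - c • (1 : G →L[ℂ] G)) ^ n) g) =
      ((A - c • (1 : H →L[ℂ] H)) ^ n) (Q g) := by
    intro n
    induction n with
    | zero => intro g; rfl
    | succ n ih =>
      intro g
      rw [pow_succ, pow_succ]
      show Q (((B - c • (1 : G →L[ℂ] G)) ^ n) ((B - c • (1 : G →L[ℂ] G)) g)) =
        ((A - c • (1 : H →L[ℂ] H)) ^ n) ((A - c • (1 : H →L[ℂ] H)) (Q g))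
      rw [ih]
      congr 1
      show Q (B g - c • g) = A (Q g) - c • Q g
      rw [map_sub, map_smul, hB, hQJ]
  refine ⟨Q x, ‖Q‖ * C, ?_, fun n => ?_⟩
  · intro hQx
    apply hx0
    have h4 : ∀ n : ℕ, ((B - c • (1 : G →L[ℂ] G)) ^ n) x = (-c) ^ n • x := by
      intro n
      induction n with
      | zero => simp
      | succ n ih =>
        rw [pow_succ']
        show (B - c • (1 : G →L[ℂ] G)) (((B - c • (1 : G →L[ℂ] G)) ^ n) x) = _
        rw [ih]
        show B ((-c) ^ n • x) - c • ((-c) ^ n • x) = _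
        rw [map_smul, hB, hQx, map_zero, map_zero, smul_zero, zero_sub, pow_succ', mul_smul,
          neg_smul]
    have h5 : ∀ n : ℕ, ‖x‖ ≤ C * (1 / 2) ^ n := by
      intro n
      have h6 := hx n
      rw [h4, norm_smul, norm_pow, norm_neg] at h6
      have h7 : C * (min ε (‖c‖ / 2)) ^ n ≤ C * (‖c‖ / 2) ^ n := by
        gcongr
        exact min_le_right _ _
      have h8 : ‖c‖ ^ n * ‖x‖ ≤ ‖c‖ ^ n * (C * (1 / 2) ^ n) := by
        calc ‖c‖ ^ n * ‖x‖ ≤ C * (‖c‖ / 2) ^ n := h6.trans h7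
          _ = ‖c‖ ^ n * (C * (1 / 2) ^ n) := by rw [div_eq_mul_one_div, mul_pow]; ring
      exact le_of_mul_le_mul_left h8 (by positivity)
    have h9 : Tendsto (fun n : ℕ => C * (1 / 2 : ℝ) ^ n) atTop (𝓝 (C * 0)) :=
      (tendsto_pow_atTop_nhds_zero_of_lt_one (by norm_num) (by norm_num)).const_mul C
    have h10 : ‖x‖ ≤ C * 0 := ge_of_tendsto' h9 h5
    rw [mul_zero] at h10
    exact norm_le_zero_iff.1 h10
  · rw [← hpow]
    calc ‖Q (((B - c • (1 : G →L[ℂ] G)) ^ n) x)‖ ≤ ‖Q‖ * ‖((B - c • (1 : G →L[ℂ] G)) ^ n) x‖ :=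
          Q.le_opNorm _
      _ ≤ ‖Q‖ * (C * (min ε (‖c‖ / 2)) ^ n) := by gcongr; exact hx n
      _ ≤ ‖Q‖ * (C * ε ^ n) := by
          gcongr
          exact min_le_left _ _
      _ = ‖Q‖ * C * ε ^ n := by ring

/-- `A` is the inverse of `T - z` -/
structure Inv (T A : H →L[ℂ] H) (z : ℂ) : Prop where
  left : ∀ x, A (T x - z • x) = x
  right : ∀ x, T (A x) - z • A x = x

lemma Inv.isUnit {T A : H →L[ℂ] H} {z : ℂ} (h : Inv T A z) : IsUnit A := by
  refine ⟨⟨A, T - z • 1, ?_, ?_⟩, rfl⟩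
  · ext x
    exact h.left x
  · ext x
    exact h.right x

/-- small local spectra of `(T - z)⁻¹` give those of `T` -/
lemma locVec_inv {T A : H →L[ℂ] H} {z : ℂ} (hi : Inv T A z) (h : LocVec A) : LocVec T := by
  intro c hc ε hε
  have hcz : c - z ≠ 0 := by
    intro h0
    apply hc
    have h1 : c = z := sub_eq_zero.1 h0
    refine ⟨⟨algebraMap ℂ (H →L[ℂ] H) c - T, -A, ?_, ?_⟩, rfl⟩
    · ext x
      show (algebraMap ℂ (H →L[ℂ] H) c - T) (-A x) = x
      have := hi.right x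
      simp only [Algebra.algebraMap_eq_smul_one, map_neg, ContinuousLinearMap.sub_apply,
        ContinuousLinearMap.smul_apply, ContinuousLinearMap.one_apply, h1]
      rw [neg_sub]
      exact this
    · ext x
      show -A ((algebraMap ℂ (H →L[ℂ] H) c - T) x) = x
      have := hi.left x
      simp only [Algebra.algebraMap_eq_smul_one, ContinuousLinearMap.sub_apply,
        ContinuousLinearMap.smul_apply, ContinuousLinearMap.one_apply, h1]
      rw [← map_neg, neg_sub]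
      exact this
  set a : ℂ := (c - z)⁻¹ with ha
  have hFA : (T - z • (1 : H →L[ℂ] H)) * A = 1 := by
    ext x
    exact hi.right x
  have hAF : A * (T - z • (1 : H →L[ℂ] H)) = 1 := by
    ext x
    exact hi.left x
  have hcomm : Commute (T - z • (1 : H →L[ℂ] H)) (A - a • (1 : H →L[ℂ] H)) := by
    show (T - z • (1 : H →L[ℂ] H)) * (A - a • (1 : H →L[ℂ] H)) =
      (A - a • (1 : H →L[ℂ] H)) * (T - z • (1 : H →L[ℂ] H))
    generalize T - z • (1 : H →L[ℂ] H) = F at hFA hAF ⊢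
    rw [mul_sub, sub_mul, hFA, hAF, mul_smul_comm, smul_mul_assoc, mul_one, one_mul]
  have key : T - c • (1 : H →L[ℂ] H) =
      (-(c - z)) • ((T - z • (1 : H →L[ℂ] H)) * (A - a • (1 : H →L[ℂ] H))) := by
    rw [mul_sub, hFA, mul_smul_comm, mul_one, smul_sub, smul_smul]
    have h2 : -(c - z) * a = -1 := by rw [ha, neg_mul, mul_inv_cancel₀ hcz]
    rw [h2, neg_smul, neg_smul, one_smul, sub_smul]
    abel
  have hpow : ∀ n : ℕ, (T - c • (1 : H →L[ℂ] H)) ^ n = ((-(c - z)) ^ n) •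
      ((T - z • (1 : H →L[ℂ] H)) ^ n * (A - a • (1 : H →L[ℂ] H)) ^ n) := by
    intro n
    rw [key, smul_pow, hcomm.mul_pow]
  have haA : a ∈ spectrum ℂ A := by
    by_contra hcon
    have hU : IsUnit (algebraMap ℂ (H →L[ℂ] H) a - A) := by
      by_contra h'
      exact hcon h'
    apply hc
    have e1 : algebraMap ℂ (H →L[ℂ] H) c - T =
        (algebraMap ℂ (H →L[ℂ] H) (-(c - z))) *
          ((T - z • (1 : H →L[ℂ] H)) * (algebraMap ℂ (H →L[ℂ] H) a - A)) := by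
      have e2 : algebraMap ℂ (H →L[ℂ] H) a - A = -(A - a • (1 : H →L[ℂ] H)) := by
        rw [Algebra.algebraMap_eq_smul_one]
        abel
      have e3 : algebraMap ℂ (H →L[ℂ] H) c - T = -(T - c • (1 : H →L[ℂ] H)) := by
        rw [Algebra.algebraMap_eq_smul_one]
        abel
      rw [e2, e3, key, ← Algebra.smul_def, mul_neg, smul_neg]
    have u1 : IsUnit (algebraMap ℂ (H →L[ℂ] H) (-(c - z))) :=
      (isUnit_iff_ne_zero.2 (neg_ne_zero.2 hcz)).map _
    have u2 : IsUnit (T - z • (1 : H →L[ℂ] H)) := ⟨⟨_, A, hFA, hAF⟩, rfl⟩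
    change IsUnit (algebraMap ℂ (H →L[ℂ] H) c - T)
    rw [e1]
    exact u1.mul (u2.mul hU)
  set L : ℝ := ‖c - z‖ * ‖T - z • (1 : H →L[ℂ] H)‖ + 1 with hL
  have hL0 : 0 < L := by positivity
  obtain ⟨x, C, hx0, hx⟩ := h a haA (ε / L) (by positivity)
  have hC : 0 ≤ C := by
    have := hx 0
    simp only [pow_zero, mul_one] at this
    exact le_trans (norm_nonneg _) this
  refine ⟨x, C, hx0, fun n => ?_⟩
  rw [hpow]
  have h1 : ‖((T - z • (1 : H →L[ℂ] H)) ^ n) (((A - a • (1 : H →L[ℂ] H)) ^ n) x)‖ ≤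
      ‖T - z • (1 : H →L[ℂ] H)‖ ^ n * (C * (ε / L) ^ n) := by
    have hn : ∀ (n : ℕ) (F : H →L[ℂ] H) (y : H), ‖(F ^ n) y‖ ≤ ‖F‖ ^ n * ‖y‖ := by
      intro n F
      induction n with
      | zero => intro y; simp
      | succ n ih =>
        intro y
        rw [pow_succ']
        calc ‖F ((F ^ n) y)‖ ≤ ‖F‖ * ‖(F ^ n) y‖ := F.le_opNorm _
          _ ≤ ‖F‖ * (‖F‖ ^ n * ‖y‖) := by gcongr; exact ih y
          _ = ‖F‖ ^ (n + 1) * ‖y‖ := by ring
    calc _ ≤ ‖T - z • (1 : H →L[ℂ] H)‖ ^ n * ‖((A - a • (1 : H →L[ℂ] H)) ^ n) x‖ := hn _ _ _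
      _ ≤ _ := by gcongr; exact hx n
  calc ‖((-(c - z)) ^ n) • ((T - z • (1 : H →L[ℂ] H)) ^ n)
        (((A - a • (1 : H →L[ℂ] H)) ^ n) x)‖
      = ‖c - z‖ ^ n * ‖((T - z • (1 : H →L[ℂ] H)) ^ n) (((A - a • (1 : H →L[ℂ] H)) ^ n) x)‖ := by
        rw [norm_smul, norm_pow, norm_neg]
    _ ≤ ‖c - z‖ ^ n * (‖T - z • (1 : H →L[ℂ] H)‖ ^ n * (C * (ε / L) ^ n)) := by gcongr
    _ = C * (‖c - z‖ * ‖T - z • (1 : H →L[ℂ] H)‖ * (ε / L)) ^ n := by
        rw [mul_pow, mul_pow]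
        ring
    _ ≤ C * ε ^ n := by
        gcongr
        calc ‖c - z‖ * ‖T - z • (1 : H →L[ℂ] H)‖ * (ε / L) ≤ L * (ε / L) := by
              gcongr
              rw [hL]
              linarith
          _ = ε := by field_simp

lemma Inv.commute {T A Q : H →L[ℂ] H} {z : ℂ} (h : Inv T A z) (hQ : Q * T = T * Q) :
    Q * A = A * Q := by
  have hQ' : ∀ x, Q (T x) = T (Q x) := fun x => congrArg (fun F : H →L[ℂ] H => F x) hQ
  ext x
  show Q (A x) = A (Q x)
  have h1 := h.left (Q (A x))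
  rw [← h1, ← hQ', ← map_smul, ← map_sub, h.right]

lemma hyp_inv {T A : H →L[ℂ] H} {z : ℂ} (hi : Inv T A z) (h : HasHyp A) : HasHyp T := by
  obtain ⟨V, h1, h2, h3, h4⟩ := h
  exact ⟨V, h1, h2, h3, fun Q hQ x hx => h4 Q (hi.commute hQ) x hx⟩

lemma scalar_inv {T A : H →L[ℂ] H} {z : ℂ} (hi : Inv T A z)
    (h : ∃ c : ℂ, A = c • (1 : H →L[ℂ] H)) : ∃ c : ℂ, T = c • (1 : H →L[ℂ] H) := by
  obtain ⟨c, hc⟩ := h
  by_cases hc0 : c = 0
  · refine ⟨0, ?_⟩
    have h0 : ∀ x : H, x = 0 := by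
      intro x
      have := hi.left x
      rw [hc, hc0, zero_smul] at this
      exact this.symm
    ext x
    rw [h0 (T x), zero_smul]
    rfl
  · refine ⟨z + c⁻¹, ?_⟩
    ext x
    have h1 := hi.left x
    rw [hc] at h1
    have h2 : c • (T x - z • x) = x := h1
    show T x = (z + c⁻¹) • x
    have h3 : c⁻¹ • x = T x - z • x := (inv_smul_eq_iff₀ hc0).2 h2.symm
    rw [add_smul, h3]
    abel

end General

end Pool.Agent.Q202.HC
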