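import Pool.Agent.Q202.HC.Base
import Pool.Agent.Y271.RO.Final

/-!
# Hyperplanes: compressions of normal operators, and operators with a normal compression
-/

set_option autoImplicit false

namespace Pool.Agent.Q202.HC

open Filter Topology
open scoped InnerProductSpace ComplexConjugate
open Pool.Agent.Y283.NK (HasHyp LocVec)
open Pool.Agent.Y271.RO (T1)
open ContinuousLinearMap (adjoint)

/-- `J : H → G` is an isometric inclusion of a hyperplane, `Q` its adjoint, `w` a normal unit vector -/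
structure Hyp {H G : Type} [NormedAddCommGroup H] [InnerProductSpace ℂ H]
    [NormedAddCommGroup G] [InnerProductSpace ℂ G]
    (J : H →L[ℂ] G) (Q : G →L[ℂ] H) (w : G) : Prop where
  nw : ‖w‖ = 1
  qw : Q w = 0
  qj : ∀ x, Q (J x) = x
  adj : ∀ (x : H) (g : G), ⟪J x, g⟫_ℂ = ⟪x, Q g⟫_ℂ
  w : ∀ g, g = J (Q g) + ⟪w, g⟫_ℂ • w

section

variable {H G : Type} [NormedAddCommGroup H] [InnerProductSpace ℂ H] [CompleteSpace H]
  [NormedAddCommGroup G] [InnerProductSpace ℂ G] [CompleteSpace G]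

lemma adjoint_eq {J : H →L[ℂ] G} {Q : G →L[ℂ] H} (h : ∀ (x : H) (g : G), ⟪J x, g⟫_ℂ = ⟪x, Q g⟫_ℂ) :
    adjoint J = Q := by
  ext g
  refine ext_inner_left ℂ fun x => ?_
  rw [ContinuousLinearMap.adjoint_inner_right, h]

lemma adjoint_eq' {J : H →L[ℂ] G} {Q : G →L[ℂ] H} (h : ∀ (x : H) (g : G), ⟪J x, g⟫_ℂ = ⟪x, Q g⟫_ℂ) :
    adjoint Q = J := by
  rw [← adjoint_eq h, ContinuousLinearMap.adjoint_adjoint]

lemma Inv.adj {T A : H →L[ℂ] H} {z : ℂ} (h : Inv T A z) : Inv (adjoint T) (adjoint A) (conj z) := by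
  constructor
  · intro x
    refine ext_inner_left ℂ fun y => ?_
    rw [ContinuousLinearMap.adjoint_inner_right, inner_sub_right, inner_smul_right,
      ContinuousLinearMap.adjoint_inner_right]
    have h1 := h.right y
    have h2 : ⟪T (A y) - z • A y, x⟫_ℂ = ⟪y, x⟫_ℂ := by rw [h1]
    rw [inner_sub_left, inner_smul_left] at h2
    exact h2
  · intro x
    refine ext_inner_left ℂ fun y => ?_
    rw [inner_sub_right, inner_smul_right, ContinuousLinearMap.adjoint_inner_right,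
      ContinuousLinearMap.adjoint_inner_right, ContinuousLinearMap.adjoint_inner_right]
    have h1 := h.left y
    have h2 : ⟪A (T y - z • y), x⟫_ℂ = ⟪y, x⟫_ℂ := by rw [h1]
    rw [map_sub, map_smul, inner_sub_left, inner_smul_left] at h2
    exact h2

/-- existence of resolvents at large points -/
lemma exists_inv (T : H →L[ℂ] H) (z : ℂ) (hz : ‖T‖ < ‖z‖) : ∃ A, Inv T A z := by
  have h1 : z ∈ resolventSet ℂ T := by
    apply spectrum.mem_resolventSet_of_norm_lt_mul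
    have h2 : ‖(1 : H →L[ℂ] H)‖ ≤ 1 := ContinuousLinearMap.norm_id_le
    calc ‖T‖ * ‖(1 : H →L[ℂ] H)‖ ≤ ‖T‖ * 1 := by gcongr
      _ = ‖T‖ := mul_one _
      _ < ‖z‖ := hz
  obtain ⟨U, hU⟩ := (spectrum.mem_resolventSet_iff.1 h1 : IsUnit (algebraMap ℂ (H →L[ℂ] H) z - T))
  have h3 : ∀ x, (algebraMap ℂ (H →L[ℂ] H) z - T) ((↑U⁻¹ : H →L[ℂ] H) x) = x := by
    intro x
    have := congrArg (fun F : H →L[ℂ] H => F x) U.mul_inv
    rw [hU] at this
    exact this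
  have h4 : ∀ x, (↑U⁻¹ : H →L[ℂ] H) ((algebraMap ℂ (H →L[ℂ] H) z - T) x) = x := by
    intro x
    have := congrArg (fun F : H →L[ℂ] H => F x) U.inv_mul
    rw [hU] at this
    exact this
  have e : ∀ x, (algebraMap ℂ (H →L[ℂ] H) z - T) x = -(T x - z • x) := by
    intro x
    simp [Algebra.algebraMap_eq_smul_one]
  refine ⟨-(↑U⁻¹ : H →L[ℂ] H), fun x => ?_, fun x => ?_⟩
  · have := h4 x
    rw [e, map_neg] at this
    exact this
  · have := h3 x
    rw [e] at this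
    show T (-(↑U⁻¹ : H →L[ℂ] H) x) - z • (-(↑U⁻¹ : H →L[ℂ] H) x) = x
    rw [map_neg, smul_neg, ← neg_sub']
    exact this

/-- resolvents of normal operators are normal -/
lemma Inv.normal {T A : H →L[ℂ] H} {z : ℂ} (h : Inv T A z) (hT : IsStarNormal T) :
    IsStarNormal A := by
  have h1 : ∀ x, adjoint T (T x) = T (adjoint T x) := by
    intro x
    exact congrArg (fun F : H →L[ℂ] H => F x) hT.star_comm_self
  have h2 : adjoint T * A = A * adjoint T := h.commute (by ext x; exact h1 x)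
  have h3 : A * adjoint A = adjoint A * A := h.adj.commute h2.symm
  exact ⟨h3.symm⟩

/-- the normal operator `J R Q` -/
lemma normal_ext {J : H →L[ℂ] G} {Q : G →L[ℂ] H} {w : G} (hJ : Hyp J Q w) {R : H →L[ℂ] H}
    (hR : IsStarNormal R) : IsStarNormal (J ∘L R ∘L Q) := by
  have h1 : adjoint (J ∘L R ∘L Q) = J ∘L adjoint R ∘L Q := by
    rw [ContinuousLinearMap.adjoint_comp, ContinuousLinearMap.adjoint_comp, adjoint_eq hJ.adj,
      adjoint_eq' hJ.adj]
    rfl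
  constructor
  show adjoint (J ∘L R ∘L Q) * (J ∘L R ∘L Q) = (J ∘L R ∘L Q) * adjoint (J ∘L R ∘L Q)
  rw [h1]
  ext g
  show J (adjoint R (Q (J (R (Q g))))) = J (R (Q (J (adjoint R (Q g)))))
  rw [hJ.qj, hJ.qj]
  congr 1
  exact congrArg (fun F : H →L[ℂ] H => F (Q g)) hR.star_comm_self

lemma Hyp.eq {J : H →L[ℂ] G} {Q : G →L[ℂ] H} {w : G} (hJ : Hyp J Q w) {g : G} (h : Q g = 0) :
    g = ⟪w, g⟫_ℂ • w := by
  have := hJ.w g
  rw [h, map_zero, zero_add] at this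
  exact this

/-- operators on `G` with the compression `N` to the hyperplane: the resolvent is a rank one
perturbation of `J (N - z)⁻¹ Q` -/
lemma resolvent_ext {J : H →L[ℂ] G} {Q : G →L[ℂ] H} {w : G} (hJ : Hyp J Q w) {T A : G →L[ℂ] G}
    {N R : H →L[ℂ] H} {z : ℂ} (hT : Inv T A z) (hN : Inv N R z) (hc : ∀ x, N x = Q (T (J x))) :
    ∃ u v : G, A = T1 (J ∘L R ∘L Q) u v := by
  set F : G →L[ℂ] G := (T - z • (1 : G →L[ℂ] G)) ∘L (J ∘L R ∘L Q) with hF
  refine ⟨A w, w - adjoint F w, ?_⟩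
  ext x
  have hFx : F x = T (J (R (Q x))) - z • J (R (Q x)) := rfl
  have h1 : Q (x - F x) = 0 := by
    rw [map_sub, hFx, map_sub, map_smul, ← hc, hJ.qj, hN.right, sub_self]
  have h2 := hJ.eq h1
  have h3 : A (x - F x) = A x - J (R (Q x)) := by
    rw [map_sub, hFx, hT.left]
  show A x = J (R (Q x)) + ⟪w - adjoint F w, x⟫_ℂ • A w
  have h4 : ⟪w - adjoint F w, x⟫_ℂ = ⟪w, x - F x⟫_ℂ := by
    rw [inner_sub_left, ContinuousLinearMap.adjoint_inner_left, inner_sub_right]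
  rw [h4, ← map_smul, ← h2, h3]
  abel

/-- the compression `T` of `N` to the hyperplane: `J (T - z)⁻¹ Q` is a rank one perturbation of
`(N - z)⁻¹` -/
lemma resolvent_comp {J : H →L[ℂ] G} {Q : G →L[ℂ] H} {w : G} (hJ : Hyp J Q w) {N R : G →L[ℂ] G}
    {T A : H →L[ℂ] H} {z : ℂ} (hN : Inv N R z) (hT : Inv T A z) (hc : ∀ x, T x = Q (N (J x))) :
    ∃ u v : G, J ∘L A ∘L Q = T1 R u v := by
  set F : G →L[ℂ] G := (N - z • (1 : G →L[ℂ] G)) ∘L (J ∘L A ∘L Q) with hF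
  refine ⟨-R w, w - adjoint F w, ?_⟩
  ext x
  have hFx : F x = N (J (A (Q x))) - z • J (A (Q x)) := rfl
  have h1 : Q (x - F x) = 0 := by
    rw [map_sub, hFx, map_sub, map_smul, ← hc, hJ.qj, hT.right, sub_self]
  have h2 := hJ.eq h1
  have h3 : R (x - F x) = R x - J (A (Q x)) := by
    rw [map_sub, hFx, hN.left]
  show J (A (Q x)) = R x + ⟪w - adjoint F w, x⟫_ℂ • (-R w)
  have h4 : ⟪w - adjoint F w, x⟫_ℂ = ⟪w, x - F x⟫_ℂ := by
    rw [inner_sub_left, ContinuousLinearMap.adjoint_inner_left, inner_sub_right]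
  rw [h4, smul_neg, ← map_smul, ← h2, h3]
  abel

/-- the closed hyperplane of a Hilbert space -/
lemma exists_hyp (M : Submodule ℂ G) [M.HasOrthogonalProjection]
    (h1 : Module.finrank ℂ Mᗮ = 1) :
    ∃ w : G, Hyp (H := M) M.subtypeL M.orthogonalProjectionOnto w := by
  obtain ⟨⟨w0, hw0⟩, hne, hsp⟩ := finrank_eq_one_iff'.1 h1
  have hw0' : w0 ≠ 0 := by
    intro h
    apply hne
    ext
    exact h
  have hn : 0 < ‖w0‖ := norm_pos_iff.2 hw0'
  set w : G := ((‖w0‖⁻¹ : ℝ) : ℂ) • w0 with hw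
  have hnorm : ‖w‖ = 1 := by
    rw [hw, norm_smul, Complex.norm_real, norm_inv, norm_norm, inv_mul_cancel₀ hn.ne']
  have hwM : w ∈ Mᗮ := Mᗮ.smul_mem _ hw0
  refine ⟨w, hnorm, ?_, ?_, ?_, ?_⟩
  · exact Submodule.orthogonalProjectionOnto_eq_zero_iff.2 hwM
  · intro x
    exact Submodule.orthogonalProjectionOnto_mem_subspace_eq_self x
  · intro x g
    exact (Submodule.inner_orthogonalProjectionOnto_eq_of_mem_left x g).symm
  · intro g
    have h2 : g - M.starProjection g ∈ Mᗮ := M.sub_starProjection_mem_orthogonal g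
    obtain ⟨c, hc⟩ := hsp ⟨_, h2⟩
    have hc' : c • w0 = g - M.starProjection g := congrArg Subtype.val hc
    have h3 : g - M.starProjection g = (c * ‖w0‖) • w := by
      rw [hw, smul_smul, ← hc']
      congr 1
      rw [Complex.ofReal_inv, mul_assoc, mul_inv_cancel₀ (by exact_mod_cast hn.ne'), mul_one]
    have h4 : ⟪w, M.starProjection g⟫_ℂ = 0 :=
      (Submodule.mem_orthogonal' M w).1 hwM _ (Submodule.starProjection_apply_mem M g)
    have h5 : ⟪w, g⟫_ℂ = c * ‖w0‖ := by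
      have h6 : g = M.starProjection g + (c * ‖w0‖) • w := by rw [← h3]; abel
      rw [h6, inner_add_right, h4, zero_add, inner_smul_right, inner_self_eq_norm_sq_to_K, hnorm]
      simp
    show g = M.starProjection g + ⟪w, g⟫_ℂ • w
    rw [h5, ← h3]
    abel

/-- extension by zero and adjoints -/
lemma adj_ext {J : H →L[ℂ] G} {Q : G →L[ℂ] H} {w : G} (hJ : Hyp J Q w) (R : H →L[ℂ] H) :
    adjoint (J ∘L R ∘L Q) = J ∘L adjoint R ∘L Q := by
  rw [ContinuousLinearMap.adjoint_comp, ContinuousLinearMap.adjoint_comp, adjoint_eq hJ.adj,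
    adjoint_eq' hJ.adj]
  rfl

lemma Hyp.inner_w_J {J : H →L[ℂ] G} {Q : G →L[ℂ] H} {w : G} (hJ : Hyp J Q w) (x : H) :
    ⟪w, J x⟫_ℂ = 0 := by
  rw [← inner_conj_symm, hJ.adj, hJ.qw, inner_zero_right, map_zero]

lemma Hyp.inner_w_w {J : H →L[ℂ] G} {Q : G →L[ℂ] H} {w : G} (hJ : Hyp J Q w) :
    ⟪w, w⟫_ℂ = 1 := by
  rw [inner_self_eq_norm_sq_to_K, hJ.nw]
  simp

/-- the spectrum of `T ⊕ c₁` -/
lemma spec_ext {J : H →L[ℂ] G} {Q : G →L[ℂ] H} {w : G} (hJ : Hyp J Q w) {T : H →L[ℂ] H}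
    {B : G →L[ℂ] G} {c₁ : ℂ} (hB : ∀ g, B g = J (T (Q g)) + (c₁ * ⟪w, g⟫_ℂ) • w)
    (hone : spectrum ℂ T = {c₁}) : spectrum ℂ B = {c₁} := by
  apply Set.Subset.antisymm
  · intro c hc
    by_contra hne
    have hne' : c ≠ c₁ := hne
    have hcT : c ∉ spectrum ℂ T := by
      rw [hone]
      exact hne
    have hU : IsUnit (algebraMap ℂ (H →L[ℂ] H) c - T) := by
      by_contra h'
      exact hcT h'
    obtain ⟨U, hU⟩ := hU
    have h3 : ∀ x, c • ((↑U⁻¹ : H →L[ℂ] H) x) - T ((↑U⁻¹ : H →L[ℂ] H) x) = x := by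
      intro x
      have := congrArg (fun F : H →L[ℂ] H => F x) U.mul_inv
      rw [hU, Algebra.algebraMap_eq_smul_one] at this
      exact this
    have h4 : ∀ x, (↑U⁻¹ : H →L[ℂ] H) (c • x - T x) = x := by
      intro x
      have := congrArg (fun F : H →L[ℂ] H => F x) U.inv_mul
      rw [hU, Algebra.algebraMap_eq_smul_one] at this
      exact this
    have hd : c - c₁ ≠ 0 := sub_ne_zero.2 hne'
    apply hc
    refine ⟨⟨algebraMap ℂ (G →L[ℂ] G) c - B, J ∘L (↑U⁻¹ : H →L[ℂ] H) ∘L Q +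
      (c - c₁)⁻¹ • (innerSL ℂ w).smulRight w, ?_, ?_⟩, rfl⟩
    · ext g
      set s : H := (↑U⁻¹ : H →L[ℂ] H) (Q g) with hs
      have e0 : (J ∘L (↑U⁻¹ : H →L[ℂ] H) ∘L Q + (c - c₁)⁻¹ • (innerSL ℂ w).smulRight w) g =
          J s + (c - c₁)⁻¹ • (⟪w, g⟫_ℂ • w) := rfl
      show (algebraMap ℂ (G →L[ℂ] G) c - B)
        ((J ∘L (↑U⁻¹ : H →L[ℂ] H) ∘L Q + (c - c₁)⁻¹ • (innerSL ℂ w).smulRight w) g) = g
      rw [e0]
      have e1 : ∀ y, (algebraMap ℂ (G →L[ℂ] G) c - B) y = c • y - B y := fun y => by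
        simp [Algebra.algebraMap_eq_smul_one]
      rw [e1, hB]
      have e2 : Q (J s + (c - c₁)⁻¹ • (⟪w, g⟫_ℂ • w)) = s := by
        rw [map_add, hJ.qj, map_smul, map_smul, hJ.qw, smul_zero, smul_zero, add_zero]
      have e3 : ⟪w, J s + (c - c₁)⁻¹ • (⟪w, g⟫_ℂ • w)⟫_ℂ = (c - c₁)⁻¹ * ⟪w, g⟫_ℂ := by
        rw [inner_add_right, hJ.inner_w_J, inner_smul_right, inner_smul_right, hJ.inner_w_w]
        ring
      rw [e2, e3]
      have e4 : J (Q g) = c • J s - J (T s) := by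
        rw [← map_smul, ← map_sub, hs, h3]
      have e5 := hJ.w g
      have e6 : c • (c - c₁)⁻¹ • (⟪w, g⟫_ℂ • w) - (c₁ * ((c - c₁)⁻¹ * ⟪w, g⟫_ℂ)) • w =
          ⟪w, g⟫_ℂ • w := by
        rw [smul_smul, smul_smul, ← sub_smul]
        congr 1
        field_simp
      conv_rhs => rw [e5, e4, ← e6]
      rw [smul_add]
      abel
    · ext g
      have e1 : ∀ y, (algebraMap ℂ (G →L[ℂ] G) c - B) y = c • y - B y := fun y => by
        simp [Algebra.algebraMap_eq_smul_one]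
      show (J ∘L (↑U⁻¹ : H →L[ℂ] H) ∘L Q + (c - c₁)⁻¹ • (innerSL ℂ w).smulRight w)
        ((algebraMap ℂ (G →L[ℂ] G) c - B) g) = g
      rw [e1]
      show J ((↑U⁻¹ : H →L[ℂ] H) (Q (c • g - B g))) + (c - c₁)⁻¹ • (⟪w, c • g - B g⟫_ℂ • w) = g
      have e2 : Q (c • g - B g) = c • Q g - T (Q g) := by
        rw [map_sub, map_smul, hB, map_add, hJ.qj, map_smul, hJ.qw, smul_zero, add_zero]
      have e3 : ⟪w, c • g - B g⟫_ℂ = (c - c₁) * ⟪w, g⟫_ℂ := by
        rw [inner_sub_right, inner_smul_right, hB, inner_add_right, hJ.inner_w_J,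
          inner_smul_right, hJ.inner_w_w]
        ring
      rw [e2, e3, h4, smul_smul, ← mul_assoc, inv_mul_cancel₀ hd, one_mul]
      exact (hJ.w g).symm
  · intro c hc
    rw [Set.mem_singleton_iff.1 hc]
    rintro ⟨U, hU⟩
    have h1 : (algebraMap ℂ (G →L[ℂ] G) c₁ - B) w = 0 := by
      have : (algebraMap ℂ (G →L[ℂ] G) c₁ - B) w = c₁ • w - B w := by
        simp [Algebra.algebraMap_eq_smul_one]
      rw [this, hB, hJ.qw, map_zero, map_zero, zero_add, hJ.inner_w_w, mul_one, sub_self]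
    have h2 : (↑U⁻¹ : G →L[ℂ] G) ((algebraMap ℂ (G →L[ℂ] G) c₁ - B) w) = w := by
      have := congrArg (fun F : G →L[ℂ] G => F w) U.inv_mul
      rw [hU] at this
      exact this
    rw [h1, map_zero] at h2
    have h3 := hJ.nw
    rw [← h2, norm_zero] at h3
    exact zero_ne_one h3

/-- **Operators with a normal compression to a hyperplane.** -/
theorem mainB [TopologicalSpace.SeparableSpace G] {J : H →L[ℂ] G} {Q : G →L[ℂ] H} {w : G}
    (hJ : Hyp J Q w) (T : G →L[ℂ] G) (N : H →L[ℂ] H) (hN : IsStarNormal N)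
    (hc : ∀ x, N x = Q (T (J x))) :
    ((∃ c : ℂ, T = c • (1 : G →L[ℂ] G)) ∨ HasHyp T) ∧ LocVec T ∧ LocVec (adjoint T) := by
  have hz : ‖((‖T‖ + ‖N‖ + 1 : ℝ) : ℂ)‖ = ‖T‖ + ‖N‖ + 1 := by
    rw [Complex.norm_real, Real.norm_of_nonneg (by positivity)]
  obtain ⟨A, hA⟩ := exists_inv T ((‖T‖ + ‖N‖ + 1 : ℝ) : ℂ) (by
    rw [hz]; linarith [norm_nonneg N])
  obtain ⟨R, hR⟩ := exists_inv N ((‖T‖ + ‖N‖ + 1 : ℝ) : ℂ) (by
    rw [hz]; linarith [norm_nonneg T])
  obtain ⟨u, v, h⟩ := resolvent_ext hJ hA hR hc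
  have hn : IsStarNormal (J ∘L R ∘L Q) := normal_ext hJ (hR.normal hN)
  obtain ⟨m1, m2, m3⟩ := Pool.Agent.Y271.RO.main G (J ∘L R ∘L Q) hn u v
  rw [← h] at m1 m2 m3
  refine ⟨?_, locVec_inv hA m2, locVec_inv hA.adj m3⟩
  rcases m1 with m1 | m1
  · exact Or.inl (scalar_inv hA m1)
  · exact Or.inr (hyp_inv hA m1)

/-- **Compressions of normal operators to hyperplanes.** -/
theorem mainA [TopologicalSpace.SeparableSpace G] {J : H →L[ℂ] G} {Q : G →L[ℂ] H} {w : G}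
    (hJ : Hyp J Q w) (N : G →L[ℂ] G) (hN : IsStarNormal N) (T : H →L[ℂ] H)
    (hc : ∀ x, T x = Q (N (J x))) :
    ((∃ c : ℂ, T = c • (1 : H →L[ℂ] H)) ∨ HasHyp T) ∧ LocVec T ∧ LocVec (adjoint T) := by
  have hz : ‖((‖T‖ + ‖N‖ + 1 : ℝ) : ℂ)‖ = ‖T‖ + ‖N‖ + 1 := by
    rw [Complex.norm_real, Real.norm_of_nonneg (by positivity)]
  obtain ⟨A, hA⟩ := exists_inv T ((‖T‖ + ‖N‖ + 1 : ℝ) : ℂ) (by
    rw [hz]; linarith [norm_nonneg N])
  obtain ⟨R, hR⟩ := exists_inv N ((‖T‖ + ‖N‖ + 1 : ℝ) : ℂ) (by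
    rw [hz]; linarith [norm_nonneg T])
  obtain ⟨u, v, h⟩ := resolvent_comp hJ hR hA hc
  obtain ⟨-, m2, m3⟩ := Pool.Agent.Y271.RO.main G R (hR.normal hN) u v
  rw [← h] at m2 m3
  rw [adj_ext hJ] at m3
  have l1 : LocVec T := locVec_inv hA (locVec_of_intertw J Q hJ.qj (fun g => rfl) hA.isUnit m2)
  have l2 : LocVec (adjoint T) :=
    locVec_inv hA.adj (locVec_of_intertw J Q hJ.qj (fun g => rfl) hA.adj.isUnit m3)
  refine ⟨?_, l1, l2⟩
  by_cases hsc : ∃ c : ℂ, T = c • (1 : H →L[ℂ] H)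
  · exact Or.inl hsc
  right
  have hnt : Nontrivial H := by
    by_contra h
    rw [not_nontrivial_iff_subsingleton] at h
    apply hsc
    refine ⟨0, ?_⟩
    ext1 f
    exact Subsingleton.elim _ _
  obtain ⟨c₁, hc₁⟩ := spectrum.nonempty T
  by_cases hone : spectrum ℂ T = {c₁}
  · -- the operator on `G` which is `T` on the hyperplane and `c₁` on the orthogonal complement
    set F : G →L[ℂ] G := N ∘L (J ∘L Q) with hF
    set K : G →L[ℂ] G := (innerSL ℂ w).smulRight (c₁ • w - N w) -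
      (innerSL ℂ (adjoint F w)).smulRight w with hK
    have hKc : IsCompactOperator (⇑K) :=
      (Pool.Agent.Y271.RO.rank_compact _ _).sub (Pool.Agent.Y271.RO.rank_compact _ _)
    have hKg : ∀ g, (N + K) g = J (T (Q g)) + (c₁ * ⟪w, g⟫_ℂ) • w := by
      intro g
      have e1 : K g = ⟪w, g⟫_ℂ • (c₁ • w - N w) - ⟪w, N (J (Q g))⟫_ℂ • w := by
        rw [hK]
        show ⟪w, g⟫_ℂ • (c₁ • w - N w) - ⟪adjoint F w, g⟫_ℂ • w = _
        rw [ContinuousLinearMap.adjoint_inner_left]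
        rfl
      show N g + K g = _
      rw [e1, hc]
      have e2 := hJ.w (N (J (Q g)))
      have e3 : N g = N (J (Q g)) + ⟪w, g⟫_ℂ • N w := by
        conv_lhs => rw [hJ.w g]
        rw [map_add, map_smul]
      rw [e3]
      generalize N (J (Q g)) = y at e2 ⊢
      generalize N w = q
      generalize ⟪w, g⟫_ℂ = r
      have e4 : J (Q y) = y - ⟪w, y⟫_ℂ • w := by
        rw [eq_sub_iff_add_eq]
        exact e2.symm
      rw [e4, smul_sub, smul_smul, mul_comm c₁]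
      abel
    have hspec : spectrum ℂ (N + K) = {c₁} := spec_ext hJ hKg hone
    have h2 := Pool.Agent.W806.HI.main G N K c₁ hN hKc hspec
    have h3 : IsCompactOperator (⇑(T - c₁ • (1 : H →L[ℂ] H))) := by
      have h4 : T - c₁ • (1 : H →L[ℂ] H) = Q ∘L ((N - c₁ • (1 : G →L[ℂ] G)) ∘L J) := by
        ext x
        show T x - c₁ • x = Q (N (J x) - c₁ • J x)
        rw [map_sub, map_smul, hJ.qj, hc]
      rw [h4]
      exact (h2.comp_clm J).clm_comp Q
    refine Pool.Agent.Y271.RO.hyp_shift c₁ (Pool.Agent.W577.HI.G1.main _ _ h3 ?_)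
    rintro ⟨c, hc⟩
    apply hsc
    refine ⟨c + c₁, ?_⟩
    rw [add_smul, ← hc]
    abel
  · obtain ⟨c₂, hc₂, hne⟩ : ∃ c₂ ∈ spectrum ℂ T, c₂ ≠ c₁ := by
      by_contra hcon
      push Not at hcon
      apply hone
      ext z
      exact ⟨fun hz => hcon z hz, fun hz => by rw [Set.mem_singleton_iff.1 hz]; exact hc₁⟩
    exact Pool.Agent.Y271.RO.hyp_of_locVec l1 l2 hc₁ hc₂ (Ne.symm hne)

end

end Pool.Agent.Q202.HC
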